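import Pool.Agent.W295.NL.StmD

set_option autoImplicit false

/-! Project NL: bipartite ladder cycles give duplexes. -/

namespace Pool.Agent.W881.NL.DB

open Pool.Agent.W295.NL

variable {Q : Type} {L : Q → Q → Q} {n : ℕ} {X : Fin 3 → ℕ → Q} {κ : ℕ → Fin 3}

theorem per_mod (h : Cyc L n X κ) (a : Fin 3) (s t : ℕ) (hst : s ≡ t [MOD 2 * n]) :
    X a s = X a t := by
  have hp : Function.Periodic (X a) (2 * n) := fun t => h.per a t
  rw [← hp.map_mod_nat s, ← hp.map_mod_nat t]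
  exact congrArg (X a) hst

theorem ne_cells (h : Cyc L n X κ) (hn : 2 ≤ n)
    (hb : ∀ a t t', X a t = X a t' → t ≡ t' [MOD 2] → t ≡ t' [MOD 2 * n]) (t t' : ℕ)
    (hpar : t + 1 ≡ t' [MOD 2]) (h0 : X 0 t = X 0 t') (h1 : X 1 t = X 1 t') : False := by
  have hall : ∀ a : Fin 3, X a t = X a t' := by
    intro a
    fin_cases a
    · exact h0
    · exact h1
    · show X 2 t = X 2 t'
      rw [h.sym, h.sym, h0, h1]
  have e1 : t + 1 ≡ t' [MOD 2 * n] := by
    apply hb (κ (t + 1)) _ _ _ hpar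
    rw [h.edge t, hall]
  have hpar' : t' + 1 ≡ t [MOD 2] := by
    unfold Nat.ModEq at hpar ⊢
    omega
  have e2 : t' + 1 ≡ t [MOD 2 * n] := by
    apply hb (κ (t' + 1)) _ _ _ hpar'
    rw [h.edge t', ← hall]
  have e3 : t + 2 ≡ t [MOD 2 * n] := (Nat.ModEq.add_right 1 e1).trans e2
  have e4 : 2 ≡ 0 [MOD 2 * n] := by
    have : t + 2 ≡ t + 0 [MOD 2 * n] := e3
    exact Nat.ModEq.add_left_cancel' t this
  have e5 : 2 * n ∣ 2 := (Nat.modEq_zero_iff_dvd).1 e4
  have := Nat.le_of_dvd (by norm_num) e5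
  omega

theorem exists_pair [Finite Q] (h : Cyc L n X κ) (hn : n = Nat.card Q) (hn2 : 2 ≤ n)
    (hb : ∀ a t t', X a t = X a t' → t ≡ t' [MOD 2] → t ≡ t' [MOD 2 * n]) (a : Fin 3) (v : Q)
    (ε : ℕ) (hε : ε < 2) : ∃ i : ℕ, X a (2 * i + ε) = v := by
  have : Fintype Q := Fintype.ofFinite Q
  let g : Fin n → Q := fun i => X a (2 * i + ε)
  have hg : Function.Injective g := by
    intro i j hij
    have h1 := hb a _ _ hij (by unfold Nat.ModEq; omega)
    have hi := i.2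
    have hj := j.2
    unfold Nat.ModEq at h1
    rw [Nat.mod_eq_of_lt (by omega), Nat.mod_eq_of_lt (by omega)] at h1
    exact Fin.ext (by omega)
  have hcard : Fintype.card (Fin n) = Fintype.card Q := by
    rw [Fintype.card_fin, hn, Nat.card_eq_fintype_card]
  obtain ⟨i, hi⟩ := ((Fintype.bijective_iff_injective_and_card g).2 ⟨hg, hcard⟩).2 v
  exact ⟨i, hi⟩

theorem count [Finite Q] (h : Cyc L n X κ) (hn : n = Nat.card Q) (hn2 : 2 ≤ n)
    (hb : ∀ a t t', X a t = X a t' → t ≡ t' [MOD 2] → t ≡ t' [MOD 2 * n]) (a : Fin 3) (v : Q)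
    (c : Q × Q → Q) (hc : ∀ t, c (X 0 t, X 1 t) = X a t) :
    {p | p ∈ {p : Q × Q | ∃ t, p = (X 0 t, X 1 t)} ∧ c p = v}.ncard = 2 := by
  obtain ⟨i, hi⟩ := exists_pair h hn hn2 hb a v 0 (by norm_num)
  obtain ⟨j, hj⟩ := exists_pair h hn hn2 hb a v 1 (by norm_num)
  have hset : {p | p ∈ {p : Q × Q | ∃ t, p = (X 0 t, X 1 t)} ∧ c p = v} =
      {(X 0 (2 * i + 0), X 1 (2 * i + 0)), (X 0 (2 * j + 1), X 1 (2 * j + 1))} := by
    ext p
    simp only [Set.mem_ofPred_eq, Set.mem_insert_iff, Set.mem_singleton_iff]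
    constructor
    · rintro ⟨⟨t, rfl⟩, ht⟩
      rw [hc] at ht
      rcases Nat.mod_two_eq_zero_or_one t with hp | hp
      · left
        have h1 := hb a t (2 * i + 0) (ht.trans hi.symm) (by unfold Nat.ModEq; omega)
        rw [per_mod h 0 _ _ h1, per_mod h 1 _ _ h1]
      · right
        have h1 := hb a t (2 * j + 1) (ht.trans hj.symm) (by unfold Nat.ModEq; omega)
        rw [per_mod h 0 _ _ h1, per_mod h 1 _ _ h1]
    · rintro (rfl | rfl)
      · exact ⟨⟨_, rfl⟩, by rw [hc, hi]⟩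
      · exact ⟨⟨_, rfl⟩, by rw [hc, hj]⟩
  rw [hset]
  apply Set.ncard_pair
  intro heq
  rw [Prod.mk.injEq] at heq
  exact ne_cells h hn2 hb _ _ (by unfold Nat.ModEq; omega) heq.1 heq.2

theorem main : S_DB := by
  intro Q _ L hcard hB
  obtain ⟨X, κ, hC, hb⟩ := hB
  refine ⟨{p : Q × Q | ∃ t, p = (X 0 t, X 1 t)}, ?_, ?_, ?_⟩
  · intro r
    exact count hC rfl hcard hb 0 r (fun p => p.1) (fun t => rfl)
  · intro c
    exact count hC rfl hcard hb 1 c (fun p => p.2) (fun t => rfl)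
  · intro s
    exact count hC rfl hcard hb 2 s (fun p => L p.1 p.2) (fun t => (hC.sym t).symm)

end Pool.Agent.W881.NL.DB
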